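import Mathlib
import Pool.Agent.X200.Cm.SafeMain

/-!
A safety condition over five colours with finite general memory and infinite chromatic memory.
The definitions (arenas, strategies, memory structures, `GenMem`, `ChrMem`, `IsSafety`) are in
`Pool/Agent/X200/Cm/Defs.lean`.
-/

set_option autoImplicit false

namespace Pool.Agent.Results.MP_674d90_lc.SafetyInfiniteChromatic

open Pool.Agent.X200.Cm

/-- There is a safety condition `W` over a set of five colours whose general memory is at most four
and whose chromatic memory is infinite. -/
theorem result : ∃ (C : Type) (W : Set (ℕ → C)),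
    Nat.card C = 5 ∧ IsSafety W ∧ GenMem W ≤ 4 ∧ ChrMem W = ⊤ :=
  ⟨Col, Ws, safe_main⟩

end Pool.Agent.Results.MP_674d90_lc.SafetyInfiniteChromatic
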